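import Mathlib

/-! Symplectomorphisms of a Euclidean space with a complex structure. -/

namespace Pool.Agent.MP_630a92_gt.Osc

open scoped ContDiff RealInnerProductSpace

variable {E : Type} [NormedAddCommGroup E] [InnerProductSpace ℝ E]

/-- The linear map `A` preserves the form `ω(u, v) = ⟪J u, v⟫`. -/
def Pres (J A : E →L[ℝ] E) : Prop := ∀ u v, ⟪J (A u), A v⟫ = ⟪J u, v⟫

/-- Symplectomorphisms: smooth maps with a smooth two-sided inverse whose derivative preserves
the form `ω(u, v) = ⟪J u, v⟫` everywhere. -/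
def IsSymp (J : E →L[ℝ] E) (φ : E → E) : Prop :=
  ContDiff ℝ ∞ φ ∧
    (∃ ψ, ContDiff ℝ ∞ ψ ∧ Function.LeftInverse ψ φ ∧ Function.RightInverse ψ φ) ∧
    ∀ x, Pres J (fderiv ℝ φ x)

end Pool.Agent.MP_630a92_gt.Osc
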