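import Mathlib

/-! Smooth dependence of flows on time and initial point. -/

namespace Pool.Agent.MP_630a92_gt.Osc

open Set Filter Topology Function Metric
open scoped ContDiff NNReal

section nem

variable {X F : Type} [TopologicalSpace X] [CompactSpace X] [NormedAddCommGroup F]
  [NormedSpace ℝ F]

/-- composition with a fixed continuous map -/
def nem {G : Type} [NormedAddCommGroup G] (Y : F → G) (hY : Continuous Y) (γ : C(X, F)) :
    C(X, G) := (⟨Y, hY⟩ : C(F, G)).comp γ

/-- pointwise application of a bilinear map -/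
noncomputable def app (X : Type) [TopologicalSpace X] [CompactSpace X] {G H : Type}
    [NormedAddCommGroup G] [NormedSpace ℝ G] [NormedAddCommGroup H] [NormedSpace ℝ H]
    (B : H →L[ℝ] F →L[ℝ] G) : C(X, H) →L[ℝ] C(X, F) →L[ℝ] C(X, G) :=
  LinearMap.mkContinuous₂ (LinearMap.mk₂ ℝ
    (fun (A : C(X, H)) (η : C(X, F)) => (⟨fun t => B (A t) (η t), by fun_prop⟩ : C(X, G)))
    (fun _ _ _ => by ext; simp) (fun _ _ _ => by ext; simp) (fun _ _ _ => by ext; simp)
    (fun _ _ _ => by ext; simp)) ‖B‖ fun A η => by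
      refine (ContinuousMap.norm_le _ (by positivity)).2 fun t => (B.le_opNorm₂ _ _).trans ?_
      gcongr
      exacts [A.norm_coe_le_norm t, η.norm_coe_le_norm t]

theorem app_le {G H : Type} [NormedAddCommGroup G] [NormedSpace ℝ G] [NormedAddCommGroup H]
    [NormedSpace ℝ H] (B : H →L[ℝ] F →L[ℝ] G) (A : C(X, H)) {c : ℝ} (hc : 0 ≤ c)
    (h : ∀ t, ‖B (A t)‖ ≤ c) (η : C(X, F)) : ‖app X B A η‖ ≤ c * ‖η‖ :=
  (ContinuousMap.norm_le _ (by positivity)).2 fun t => ((B (A t)).le_opNorm _).trans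
    (mul_le_mul (h t) (η.norm_coe_le_norm t) (norm_nonneg _) hc)

variable [FiniteDimensional ℝ F]

theorem nem_fd {G : Type} [NormedAddCommGroup G] [NormedSpace ℝ G] {Y : F → G}
    (hY : ContDiff ℝ ∞ Y) (γ : C(X, F)) : HasFDerivAt (nem Y hY.continuous)
      (app X (.id ℝ (F →L[ℝ] G)) (nem (fderiv ℝ Y) (hY.continuous_fderiv (by simp)) γ)) γ := by
  have := FiniteDimensional.proper_real F
  rw [hasFDerivAt_iff_isLittleO_nhds_zero, Asymptotics.isLittleO_iff]
  intro c hc
  have hC : IsCompact (cthickening 1 (range γ)) := (isCompact_range γ.continuous).cthickening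
  obtain ⟨δ, d0, hδ⟩ := Metric.uniformContinuousOn_iff.1
    (hC.uniformContinuousOn_of_continuous (hY.continuous_fderiv (by simp)).continuousOn) c hc
  filter_upwards [ball_mem_nhds (0 : C(X, F)) (lt_min d0 one_pos)] with η hη
  rw [mem_ball_zero_iff, lt_min_iff] at hη
  refine (ContinuousMap.norm_le _ (by positivity)).2 fun t => ?_
  have hm : ∀ z ∈ closedBall (γ t) ‖η‖, z ∈ cthickening 1 (range γ) := fun z hz =>
    mem_cthickening_of_dist_le z (γ t) 1 _ (mem_range_self t) ((mem_closedBall.1 hz).trans hη.2.le)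
  have h1 := (convex_closedBall (γ t) ‖η‖).norm_image_sub_le_of_norm_fderiv_le' (𝕜 := ℝ) (f := Y)
    (φ := fderiv ℝ Y (γ t)) (C := c) (fun z _ => hY.differentiable (by simp) z)
    (fun z hz => by
      rw [← dist_eq_norm]
      exact (hδ z (hm z hz) _ (hm _ (mem_closedBall_self (norm_nonneg _)))
        ((mem_closedBall.1 hz).trans_lt hη.1)).le)
    (mem_closedBall_self (norm_nonneg _))
    (show γ t + η t ∈ _ by simpa using η.norm_coe_le_norm t)
  rw [add_sub_cancel_left] at h1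
  exact h1.trans (mul_le_mul_of_nonneg_left (η.norm_coe_le_norm t) hc.le)

theorem nem_nat (n : ℕ) : ∀ {G : Type} [NormedAddCommGroup G] [NormedSpace ℝ G] {Y : F → G}
    (hY : ContDiff ℝ ∞ Y), ContDiff ℝ n (nem (X := X) Y hY.continuous) := by
  induction n with
  | zero => exact fun hY => contDiff_zero.2 (ContinuousMap.continuous_postcomp _)
  | succ n ih =>
    intro G _ _ Y hY
    rw [Nat.cast_succ, contDiff_succ_iff_fderiv]
    refine ⟨fun γ => (nem_fd hY γ).differentiableAt, by simp, ?_⟩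
    rw [funext fun γ => (nem_fd hY γ).fderiv]
    exact (app X (.id ℝ (F →L[ℝ] G))).contDiff.comp (ih (hY.fderiv_right (m := ∞) (by simp)))

end nem

variable {F : Type} [NormedAddCommGroup F] [NormedSpace ℝ F] [FiniteDimensional ℝ F]

omit [NormedSpace ℝ F] [FiniteDimensional ℝ F] in
theorem cont_ext (η : C(Icc (0 : ℝ) 1, F)) : Continuous fun s => η (projIcc 0 1 zero_le_one s) :=
  η.continuous.comp continuous_projIcc

/-- the primitive of a path -/
noncomputable def prim (F : Type) [NormedAddCommGroup F] [NormedSpace ℝ F]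
    [FiniteDimensional ℝ F] : C(Icc (0 : ℝ) 1, F) →L[ℝ] C(Icc (0 : ℝ) 1, F) :=
  LinearMap.mkContinuous
    { toFun := fun η => ⟨fun t => ∫ s in (0 : ℝ)..t, η (projIcc 0 1 zero_le_one s),
        (intervalIntegral.continuous_primitive (fun a b => (cont_ext η).intervalIntegrable a b)
          0).comp continuous_subtype_val⟩
      map_add' := fun η ξ => by
        ext t
        exact intervalIntegral.integral_add ((cont_ext η).intervalIntegrable _ _)
          ((cont_ext ξ).intervalIntegrable _ _)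
      map_smul' := fun c η => by
        ext t
        exact intervalIntegral.integral_smul c _ } 1 fun η => by
      refine (ContinuousMap.norm_le _ (by positivity)).2 fun t => ?_
      refine (intervalIntegral.norm_integral_le_of_norm_le_const (C := ‖η‖)
        fun s _ => η.norm_coe_le_norm _).trans ?_
      rw [sub_zero, abs_of_nonneg t.2.1, one_mul]
      exact mul_le_of_le_one_right (norm_nonneg _) t.2.2

theorem prim_apply (η : C(Icc (0 : ℝ) 1, F)) (t : Icc (0 : ℝ) 1) :
    prim F η t = ∫ s in (0 : ℝ)..t, η (projIcc 0 1 zero_le_one s) := rfl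

theorem prim_norm : ‖prim F‖ ≤ 1 := LinearMap.mkContinuous_norm_le _ zero_le_one _

theorem exists_sol {Y : F → F} {K L : ℝ≥0} (hK : LipschitzWith K Y) (hL : ∀ x, ‖Y x‖ ≤ L) (x : F) :
    ∃ α : ℝ → F, α 0 = x ∧ ∀ t, HasDerivAt α (Y (α t)) t := by
  have := FiniteDimensional.complete ℝ F
  have loc : ∀ T : ℝ, 0 < T → ∃ α : ℝ → F, α 0 = x ∧ ∀ t ∈ Ioo (-T) T,
      HasDerivAt α (Y (α t)) t := fun T hT => by
    have hpl : IsPicardLindelof (fun _ => Y) (tmin := -T) (tmax := T)
        ⟨0, by linarith, hT.le⟩ x (L * ⟨T, hT.le⟩) 0 L K :=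
      { lipschitzOnWith := fun t _ => hK.lipschitzOnWith
        continuousOn := fun x _ => continuousOn_const
        norm_le := fun t ht x _ => hL x
        mul_max_le := by simp; rfl }
    obtain ⟨α, h0, hα⟩ := hpl.exists_eq_forall_mem_Icc_hasDerivWithinAt₀
    exact ⟨α, h0, fun t ht =>
      (hα t (Ioo_subset_Icc_self ht)).hasDerivAt (Icc_mem_nhds ht.1 ht.2)⟩
  choose! α h0 hα using loc
  have hcomp : ∀ T t, t ∈ Ioo (-T) T → α (|t| + 1) t = α T t := by
    intro T t ht
    have hT : 0 < T := by linarith [ht.1, ht.2]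
    have h1 : 0 < |t| + 1 := by positivity
    have hs1 : Ioo (-min T (|t| + 1)) (min T (|t| + 1)) ⊆ Ioo (-T) T :=
      Ioo_subset_Ioo (neg_le_neg (min_le_left _ _)) (min_le_left _ _)
    have hs2 : Ioo (-min T (|t| + 1)) (min T (|t| + 1)) ⊆ Ioo (-(|t| + 1)) (|t| + 1) :=
      Ioo_subset_Ioo (neg_le_neg (min_le_right _ _)) (min_le_right _ _)
    have hm : 0 < min T (|t| + 1) := lt_min hT h1
    refine ODE_solution_unique_of_mem_Ioo (v := fun _ => Y) (s := fun _ => univ) (t₀ := 0)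
      (fun t _ => hK.lipschitzOnWith) ⟨by linarith, hm⟩
      (fun s hs => ⟨hα _ h1 s (hs2 hs), trivial⟩) (fun s hs => ⟨hα _ hT s (hs1 hs), trivial⟩)
      ((h0 _ h1).trans (h0 _ hT).symm) ?_
    exact abs_lt.1 (lt_min (abs_lt.2 ht) (by linarith))
  refine ⟨fun t => α (|t| + 1) t, h0 _ (by positivity), fun t => ?_⟩
  have ht : t ∈ Ioo (-(|t| + 1)) (|t| + 1) := abs_lt.1 (by linarith)
  refine (hα _ (by positivity) t ht).congr_of_eventuallyEq ?_
  filter_upwards [Ioo_mem_nhds ht.1 ht.2] with s hs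
  exact hcomp _ s hs

omit [FiniteDimensional ℝ F] in
theorem uniq {Y : F → F} {K : ℝ≥0} (hK : LipschitzWith K Y) {α β : ℝ → F}
    (hα : ∀ t, HasDerivAt α (Y (α t)) t) (hβ : ∀ t, HasDerivAt β (Y (β t)) t) (h : α 0 = β 0) :
    α = β :=
  ODE_solution_unique_univ (v := fun _ => Y) (s := fun _ => univ) (fun _ => hK.lipschitzOnWith)
    (fun t => ⟨hα t, trivial⟩) (fun t => ⟨hβ t, trivial⟩) h

theorem short {Y : F → F} (hY : ContDiff ℝ ∞ Y) {K : ℝ≥0} (hK : LipschitzWith K Y)
    {ψ : ℝ → F → F} (h0 : ∀ x, ψ 0 x = x) (hψ : ∀ t x, HasDerivAt (ψ · x) (Y (ψ t x)) t)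
    (p : ℝ × F) (hp : |p.1| * K < 1) : ContDiffAt ℝ ∞ (uncurry ψ) p := by
  have := FiniteDimensional.complete ℝ F
  have hN : ContDiff ℝ ∞ (nem (X := Icc (0 : ℝ) 1) Y hY.continuous) :=
    contDiff_infty.2 fun n => nem_nat n hY
  have sc : ∀ (τ : ℝ) x t, HasDerivAt (fun s => ψ (τ * s) x) (τ • Y (ψ (τ * t) x)) t :=
    fun τ x t => by
      simpa [Function.comp_def] using (hψ (τ * t) x).scomp t ((hasDerivAt_id t).const_mul τ)
  have cψ : Continuous fun s => ψ (p.1 * s) p.2 :=
    continuous_iff_continuousAt.2 fun t => (sc _ _ t).continuousAt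
  let γ₀ : C(Icc (0 : ℝ) 1, F) := ⟨fun t => ψ (p.1 * t) p.2, cψ.comp continuous_subtype_val⟩
  let f : (ℝ × F) × C(Icc (0 : ℝ) 1, F) → C(Icc (0 : ℝ) 1, F) := fun q =>
    q.2 - ContinuousLinearMap.const ℝ (Icc (0 : ℝ) 1) q.1.2 - q.1.1 • prim F (nem Y hY.continuous q.2)
  have hf : ContDiff ℝ ∞ f := by fun_prop
  have f0 : f (p, γ₀) = 0 := by
    ext t
    have e : ∫ s in (0 : ℝ)..t, p.1 • Y (ψ (p.1 * s) p.2) = _ :=
      intervalIntegral.integral_eq_sub_of_hasDerivAt (fun s _ => sc p.1 p.2 s)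
        (((hY.continuous.comp cψ).const_smul p.1).intervalIntegrable _ _)
    have e2 : prim F (nem Y hY.continuous γ₀) t = ∫ s in (0 : ℝ)..t, Y (ψ (p.1 * s) p.2) := by
      refine intervalIntegral.integral_congr fun s hs => ?_
      rw [uIcc_of_le t.2.1] at hs
      rw [projIcc_of_mem _ ⟨hs.1, hs.2.trans t.2.2⟩]
      rfl
    rw [intervalIntegral.integral_smul, ← e2, mul_zero, h0] at e
    change ψ (p.1 * t) p.2 - p.2 - p.1 • prim F (nem Y hY.continuous γ₀) t = 0
    rw [e, sub_self]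
  have back : ∀ q γ, f (q, γ) = 0 → γ 1 = ψ q.1 q.2 := fun q γ h => by
    have hγ : ∀ t, γ t = q.2 + q.1 • prim F (nem Y hY.continuous γ) t := fun t => by
      have : γ t - q.2 - q.1 • prim F (nem Y hY.continuous γ) t = 0 := congr($h t)
      rw [sub_sub, sub_eq_zero] at this
      exact this
    let β : ℝ → F := fun t =>
      q.2 + q.1 • ∫ s in (0 : ℝ)..t, nem Y hY.continuous γ (projIcc 0 1 zero_le_one s)
    have hβ : ∀ t, HasDerivAt β (q.1 • Y (γ (projIcc 0 1 zero_le_one t))) t := fun t =>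
      (((cont_ext (nem Y hY.continuous γ)).integral_hasStrictDerivAt 0 t).hasDerivAt.const_smul
        q.1).const_add q.2
    have e := ODE_solution_unique (v := fun _ y => q.1 • Y y) (f := β)
      (g := fun s => ψ (q.1 * s) q.2) (a := 0) (b := 1) (K := ‖q.1‖₊ * K)
      (fun _ => (lipschitzWith_smul q.1).comp hK)
      (HasDerivAt.continuousOn fun t _ => hβ t)
      (fun t ht => by
        have := (hβ t).hasDerivWithinAt (s := Ici t)
        rwa [projIcc_of_mem _ (Ico_subset_Icc_self ht), hγ] at this)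
      (HasDerivAt.continuousOn fun t _ => sc _ _ t) (fun t _ => (sc _ _ t).hasDerivWithinAt)
      (by simp [β, h0]) (right_mem_Icc.2 zero_le_one)
    rw [hγ]
    exact e.trans (by simp only [mul_one])
  let V := p.1 • (prim F).comp
    (app _ (.id ℝ (F →L[ℝ] F)) (nem (fderiv ℝ Y) (hY.continuous_fderiv (by simp)) γ₀))
  have hV : ‖V‖ < 1 := by
    refine lt_of_le_of_lt (V.opNorm_le_bound (by positivity) fun η => ?_) hp
    refine (norm_smul p.1 (prim F _)).trans_le ?_
    rw [Real.norm_eq_abs, mul_assoc]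
    refine mul_le_mul_of_nonneg_left (((prim F).le_of_opNorm_le prim_norm _).trans ?_)
      (abs_nonneg _)
    rw [one_mul]
    refine app_le _ _ K.2 (fun t => ?_) η
    have : ‖fderiv ℝ Y (γ₀ t)‖ ≤ K := norm_fderiv_le_of_lipschitz ℝ hK
    exact this
  have hd : fderiv ℝ f (p, γ₀) ∘L .inr ℝ _ _ = 1 - V := by
    have h1 := (hf.differentiable (by simp) (p, γ₀)).hasFDerivAt.comp γ₀
      (hasFDerivAt_prodMk_right (𝕜 := ℝ) p γ₀)
    have h2 := ((hasFDerivAt_id γ₀).sub_const
      (ContinuousLinearMap.const ℝ (Icc (0 : ℝ) 1) p.2)).sub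
      (((prim F).hasFDerivAt.comp γ₀ (nem_fd hY γ₀)).const_smul p.1)
    exact h1.unique h2
  have inv : (fderiv ℝ f (p, γ₀) ∘L .inr ℝ _ _).IsInvertible :=
    ⟨ContinuousLinearEquiv.ofUnit (Units.oneSub V hV), hd.symm⟩
  have c1 := hf.contDiffAt.contDiffAt_implicitFunction (u := (p, γ₀)) (by simp) inv
  refine ((ContinuousMap.evalCLM ℝ (1 : Icc (0 : ℝ) 1)).contDiff.contDiffAt.comp p
    c1).congr_of_eventuallyEq ?_
  filter_upwards [hf.contDiffAt.eventually_apply_implicitFunction (u := (p, γ₀)) (by simp) inv]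
    with q hq
  exact (back q _ (hq.trans f0)).symm

theorem smooth_flow {Y : F → F} (hY : ContDiff ℝ ∞ Y) {K L : ℝ≥0} (hK : LipschitzWith K Y)
    (hL : ∀ x, ‖Y x‖ ≤ L) : ∃ ψ : ℝ → F → F, ContDiff ℝ ∞ (uncurry ψ) ∧ (∀ x, ψ 0 x = x) ∧
      ∀ t x, HasDerivAt (ψ · x) (Y (ψ t x)) t := by
  choose α h0 hα using exists_sol hK hL
  refine ⟨fun t x => α x t, contDiff_iff_contDiffAt.2 fun p => ?_, h0, fun t x => hα x t⟩
  have grp : ∀ a x t, α x (t + a) = α (α x a) t := fun a x t =>
    congrFun (uniq hK (α := fun t => α x (t + a)) (fun t => (hα x (t + a)).comp_add_const t a)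
      (hα _) (by rw [h0, zero_add])) t
  obtain ⟨m, hm⟩ := pow_unbounded_of_one_lt (|p.1| * K) (one_lt_two (α := ℝ))
  induction m generalizing p with
  | zero => exact short hY hK h0 (fun t x => hα x t) p (by simpa using hm)
  | succ m ih =>
    have hh : |p.1 / 2| * K < 2 ^ m := by
      rw [abs_div, abs_two, pow_succ] at *
      linarith
    have c0 : ContDiffAt ℝ ∞ (fun q : ℝ × F => q.1 / 2) p := by fun_prop
    have c1 := (ih (p.1 / 2, p.2) hh).comp p (c0.prodMk contDiffAt_snd)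
    refine ((ih (p.1 / 2, α p.2 (p.1 / 2)) hh).comp p (c0.prodMk c1)).congr_of_eventuallyEq
      (Eventually.of_forall fun q => ?_)
    change α q.2 q.1 = α (α q.2 (q.1 / 2)) (q.1 / 2)
    rw [← grp, add_halves]

end Pool.Agent.MP_630a92_gt.Osc
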