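import Mathlib

/-! Global inverses of maps that are the identity near infinity; integrals with parameters. -/

namespace Pool.Agent.MP_630a92_gt.Osc

open Set Filter Topology Function Metric MeasureTheory
open scoped ContDiff ENNReal

section inv

variable {E : Type} [NormedAddCommGroup E] [NormedSpace ℝ E]

theorem far {K : Set E} (hK : IsCompact K) : Subsingleton E ∨ ∃ y, y ∉ K := by
  rcases subsingleton_or_nontrivial E with h | h
  · exact .inl h
  · have := NormedSpace.noncompactSpace ℝ E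
    exact .inr ((ne_univ_iff_exists_notMem K).1 hK.ne_univ)

theorem fd_out {g : E → E} {K : Set E} (hK : IsClosed K) (h : ∀ x ∉ K, g x = x) {x : E}
    (hx : x ∉ K) : fderiv ℝ g x = ContinuousLinearMap.id ℝ E := by
  have : g =ᶠ[𝓝 x] id := by
    filter_upwards [hK.isOpen_compl.mem_nhds hx] with y hy using h y hy
  rw [this.fderiv_eq, fderiv_id]

variable [FiniteDimensional ℝ E]

theorem loc_eq {g : E → E} (hg : ContDiff ℝ ∞ g) {x : E} (hi : Injective (fderiv ℝ g x)) :
    ∃ A : E ≃L[ℝ] E, HasFDerivAt g (A : E →L[ℝ] E) x :=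
  ⟨(LinearEquiv.ofInjectiveEndo (fderiv ℝ g x).toLinearMap hi).toContinuousLinearEquiv,
    (hg.differentiable (by simp) x).hasFDerivAt.congr_fderiv
      (ContinuousLinearMap.ext fun _ => rfl)⟩

theorem bij_of {g : E → E} (hg : ContDiff ℝ ∞ g) (hi : ∀ x, Injective (fderiv ℝ g x))
    {K : Set E} (hK : IsCompact K) (h : ∀ x ∉ K, g x = x) : Bijective g := by
  have := FiniteDimensional.complete ℝ E
  have := FiniteDimensional.proper_real E
  choose A hA using fun x => loc_eq hg (hi x)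
  have hs : ∀ x, HasStrictFDerivAt g (A x : E →L[ℝ] E) x := fun x =>
    hg.contDiffAt.hasStrictFDerivAt' (hA x) (by simp)
  have ho : IsOpenMap g := isOpenMap_of_hasStrictFDerivAt_equiv hs
  have hc : IsClosedMap g := (isProperMap_iff_tendsto_cocompact.2 ⟨hg.continuous,
    tendsto_id.congr' (by
      filter_upwards [hK.compl_mem_cocompact] with y hy using (h y hy).symm)⟩).isClosedMap
  have hsu : Surjective g := range_eq_univ.1
    (IsClopen.eq_univ ⟨hc.isClosed_range, ho.isOpen_range⟩ (range_nonempty g))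
  refine ⟨?_, hsu⟩
  rcases far (hK.union (hK.image hg.continuous)) with h1 | ⟨y₀, hy₀⟩
  · exact fun _ _ _ => Subsingleton.elim _ _
  let T : Set E := {y | ∃ x x', x ≠ x' ∧ g x = y ∧ g x' = y}
  have h1 : IsOpen T := by
    refine isOpen_iff_mem_nhds.2 ?_
    rintro y ⟨x, x', hne, rfl, h2⟩
    obtain ⟨U, V, hU, hV, hx, hx', hd⟩ := t2_separation hne
    refine mem_of_superset (((ho U hU).inter (ho V hV)).mem_nhds ⟨⟨x, hx, rfl⟩, x', hx', h2⟩) ?_
    rintro z ⟨⟨a, ha, rfl⟩, b, hb, h3⟩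
    exact ⟨a, b, fun e => disjoint_left.1 hd ha (e ▸ hb), rfl, h3⟩
  have h2 : IsOpen Tᶜ := by
    refine isOpen_iff_mem_nhds.2 fun y hy => ?_
    obtain ⟨x, rfl⟩ := hsu y
    let e := (hs x).toOpenPartialHomeomorph g
    have h3 : g x ∈ (g '' e.sourceᶜ)ᶜ := by
      rintro ⟨a, ha, h4⟩
      exact hy ⟨a, x, fun e' => ha (e' ▸ (hs x).mem_toOpenPartialHomeomorph_source), h4, rfl⟩
    refine mem_of_superset ((hc _ e.open_source.isClosed_compl).isOpen_compl.mem_nhds h3) ?_
    rintro z hz ⟨a, b, hne, rfl, h4⟩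
    refine hne (e.injOn ?_ ?_ h4.symm)
    · by_contra h5
      exact hz ⟨a, h5, rfl⟩
    · by_contra h5
      exact hz ⟨b, h5, h4⟩
  have h3 : Tᶜ = univ := by
    refine IsClopen.eq_univ ⟨h1.isClosed_compl, h2⟩ ⟨y₀, ?_⟩
    have h4 : ∀ x, g x = y₀ → x = y₀ := fun x hx =>
      (h x fun h5 => hy₀ (.inr ⟨x, h5, hx⟩)).symm.trans hx
    rintro ⟨a, b, hne, ha, hb⟩
    exact hne ((h4 a ha).trans (h4 b hb).symm)
  intro a b hab
  by_contra hne
  exact (h3.ge (mem_univ (g b))) ⟨a, b, hne, hab, rfl⟩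

theorem inv_cd {g ψ : E → E} (hg : ContDiff ℝ ∞ g) (hi : ∀ x, Injective (fderiv ℝ g x))
    (h1 : LeftInverse ψ g) (h2 : RightInverse ψ g) : ContDiff ℝ ∞ ψ := by
  have := FiniteDimensional.complete ℝ E
  refine contDiff_iff_contDiffAt.2 fun y => ?_
  obtain ⟨A, hA⟩ := loc_eq hg (hi (ψ y))
  have h3 := hg.contDiffAt.to_localInverse hA (by simp)
  have h4 := (hg.contDiffAt.hasStrictFDerivAt' hA (by simp)).localInverse_unique
    (Eventually.of_forall h1)
  rw [h2 y] at h3 h4
  exact h3.congr_of_eventuallyEq h4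

end inv

variable {Y : Type} [NormedAddCommGroup Y] [MeasurableSpace Y] [BorelSpace Y]
  {μ : Measure Y} [IsFiniteMeasure μ] {S : Set Y}

theorem integ {F : Type} [NormedAddCommGroup F] (hS : IsCompact S) (hμ : μ Sᶜ = 0) {f : Y → F}
    (hf : Continuous f) : Integrable f μ := by
  rw [← Measure.restrict_eq_self_of_ae_mem (s := S) (μ := μ) hμ]
  exact hf.continuousOn.integrableOn_compact hS

theorem small (h0 : ∀ x, μ {x} = 0) (hS : IsCompact S) (hμ : μ Sᶜ = 0) {η : ℝ} (hη : 0 < η) :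
    ∃ r > 0, ∀ z, μ.real (ball z r) ≤ η := by
  have h : ∀ x : Y, ∃ U ⊇ {x}, IsOpen U ∧ μ U < ENNReal.ofReal η := fun x =>
    Set.exists_isOpen_lt_of_lt {x} _ (by simpa [h0] using hη)
  choose U h1 h2 h3 using h
  obtain ⟨δ, d0, hδ⟩ := lebesgue_number_lemma_of_metric hS h2
    fun x _ => mem_iUnion.2 ⟨x, h1 x rfl⟩
  refine ⟨δ / 2, by positivity, fun z => ENNReal.toReal_le_of_le_ofReal hη.le ?_⟩
  by_cases h : ∃ x ∈ S, x ∈ ball z (δ / 2)
  · obtain ⟨x, hx, hz⟩ := h
    obtain ⟨i, hi⟩ := hδ x hx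
    refine (measure_mono fun y hy => hi ?_).trans (h3 i).le
    rw [mem_ball] at *
    linarith [dist_triangle_right y x z]
  · exact (measure_mono_null (fun y hy hs => h ⟨y, hs, hy⟩) hμ).trans_le zero_le

variable {P : Type} [NormedAddCommGroup P] [NormedSpace ℝ P] [FiniteDimensional ℝ P]

theorem int_fd {F : Type} [NormedAddCommGroup F] [NormedSpace ℝ F] (hS : IsCompact S)
    (hμ : μ Sᶜ = 0) {H : P × Y → F} {H' : P × Y → P →L[ℝ] F} (c : Continuous H)
    (c' : Continuous H') (d : ∀ p y, HasFDerivAt (fun p => H (p, y)) (H' (p, y)) p) (p : P) :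
    HasFDerivAt (fun p => ∫ y, H (p, y) ∂μ) (∫ y, H' (p, y) ∂μ) p := by
  have := FiniteDimensional.proper_real P
  obtain ⟨C, hC⟩ := ((isCompact_closedBall p 1).prod hS).exists_bound_of_continuousOn
    c'.continuousOn
  refine hasFDerivAt_integral_of_dominated_of_fderiv_le (F := fun p y => H (p, y))
    (F' := fun p y => H' (p, y)) (bound := fun _ => C) (closedBall_mem_nhds p one_pos)
    (Eventually.of_forall fun q => (integ hS hμ (c.comp (Continuous.prodMk_right q))).1)
    (integ hS hμ (c.comp (Continuous.prodMk_right p)))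
    (integ hS hμ (c'.comp (Continuous.prodMk_right p))).1 ?_ (integrable_const C)
    (Eventually.of_forall fun y q _ => d q y)
  filter_upwards [show ∀ᵐ y ∂μ, y ∈ S from hμ] with y hy q hq using hC (q, y) ⟨hq, hy⟩

theorem int_nat [NormedSpace ℝ Y] (hS : IsCompact S) (hμ : μ Sᶜ = 0) (n : ℕ) :
    ∀ {F : Type} [NormedAddCommGroup F] [NormedSpace ℝ F] {H : P × Y → F}, ContDiff ℝ ∞ H →
      ContDiff ℝ n fun p => ∫ y, H (p, y) ∂μ := by
  have key : ∀ {F : Type} [NormedAddCommGroup F] [NormedSpace ℝ F] {H : P × Y → F},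
      ContDiff ℝ ∞ H → (ContDiff ℝ ∞ fun y => (fderiv ℝ H y).comp (.inl ℝ P Y)) ∧
        ∀ p, HasFDerivAt (fun p => ∫ y, H (p, y) ∂μ)
          (∫ y, (fderiv ℝ H (p, y)).comp (.inl ℝ P Y) ∂μ) p := fun hH => by
    have h1 := (contDiff_infty_iff_fderiv.1 hH).2.clm_comp
      (contDiff_const (c := ContinuousLinearMap.inl ℝ P Y))
    exact ⟨h1, int_fd hS hμ hH.continuous h1.continuous fun p y =>
      (hH.differentiable (by simp) (p, y)).hasFDerivAt.comp p (hasFDerivAt_prodMk_left p y)⟩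
  induction n with
  | zero =>
    exact fun hH => contDiff_zero.2
      (continuous_iff_continuousAt.2 fun p => ((key hH).2 p).continuousAt)
  | succ n ih =>
    exact fun hH => contDiff_succ_iff_hasFDerivAt.2 ⟨_, ih (key hH).1, (key hH).2⟩

end Pool.Agent.MP_630a92_gt.Osc
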