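import Pool.Agent.MP_630a92_gt.Osc.Flow

/-! Moser's argument for a path of maps. -/

namespace Pool.Agent.MP_630a92_gt.Osc

open Set Filter Topology Function Metric Real
open scoped ContDiff NNReal

variable {E : Type} [NormedAddCommGroup E] [NormedSpace ℝ E]

section inv

variable {W : Type} [NormedAddCommGroup W] [NormedSpace ℝ W]

theorem line {p : W → E} (hp : ContDiff ℝ ∞ p) (z b : W) (r : ℝ) :
    HasDerivAt (fun s : ℝ => p (z + s • b)) (fderiv ℝ p (z + r • b) b) r := by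
  have h : HasDerivAt (fun s : ℝ => z + s • b) b r := by
    simpa using ((hasDerivAt_id r).smul_const b).const_add z
  exact (hp.differentiable (by simp) _).hasFDerivAt.comp_hasDerivAt r h

theorem line2 {p : W → E} (hp : ContDiff ℝ ∞ p) (z b c : W) (r : ℝ) :
    HasDerivAt (fun s : ℝ => fderiv ℝ p (z + s • b) c)
      (fderiv ℝ (fderiv ℝ p) (z + r • b) b c) r := by
  simpa using (line (hp.fderiv_right (m := ∞) (by simp)) z b r).clm_apply (hasDerivAt_const r c)

theorem symm2 {p : W → E} (hp : ContDiff ℝ ∞ p) (z b c : W) :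
    fderiv ℝ (fderiv ℝ p) z b c = fderiv ℝ (fderiv ℝ p) z c b :=
  (hp.contDiffAt.isSymmSndFDerivAt (by
    rw [minSmoothness_of_isRCLikeNormedField]
    exact WithTop.coe_le_coe.2 (le_top : (2 : ℕ∞) ≤ ⊤))).eq b c

theorem bil (w : E →L[ℝ] E →L[ℝ] ℝ) {f g : ℝ → E} {f' g' : E} {r : ℝ} (hf : HasDerivAt f f' r)
    (hg : HasDerivAt g g' r) :
    HasDerivAt (fun s => w (f s) (g s)) (w f' (g r) + w (f r) g') r :=
  (w.hasFDerivAt.comp_hasDerivAt r hf).clm_apply hg

end inv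

theorem invar (w : E →L[ℝ] E →L[ℝ] ℝ) (hw : ∀ u v, w u v = -w v u) {p q : ℝ × E → E}
    (hp : ContDiff ℝ ∞ p) (hq : ContDiff ℝ ∞ q) {θ θ' : ℝ → ℝ} (hθ : ∀ t, HasDerivAt θ (θ' t) t)
    (hf : ∀ z v, (1 - θ z.1) * w (fderiv ℝ p z (1, 0)) (fderiv ℝ p z (0, v)) +
      θ z.1 * w (fderiv ℝ q z (1, 0)) (fderiv ℝ q z (0, v)) +
      θ' z.1 / 2 * (w (q z) (fderiv ℝ q z (0, v)) - w (p z) (fderiv ℝ p z (0, v))) = 0)
    (x u v : E) (t : ℝ) :
    (1 - θ t) * w (fderiv ℝ p (t, x) (0, u)) (fderiv ℝ p (t, x) (0, v)) +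
      θ t * w (fderiv ℝ q (t, x) (0, u)) (fderiv ℝ q (t, x) (0, v)) =
    (1 - θ 0) * w (fderiv ℝ p (0, x) (0, u)) (fderiv ℝ p (0, x) (0, v)) +
      θ 0 * w (fderiv ℝ q (0, x) (0, u)) (fderiv ℝ q (0, x) (0, v)) := by
  have key : ∀ (z : ℝ × E) u v,
      (1 - θ z.1) * (w (fderiv ℝ (fderiv ℝ p) z (0, u) (1, 0)) (fderiv ℝ p z (0, v)) +
        w (fderiv ℝ p z (1, 0)) (fderiv ℝ (fderiv ℝ p) z (0, u) (0, v))) +
      θ z.1 * (w (fderiv ℝ (fderiv ℝ q) z (0, u) (1, 0)) (fderiv ℝ q z (0, v)) +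
        w (fderiv ℝ q z (1, 0)) (fderiv ℝ (fderiv ℝ q) z (0, u) (0, v))) +
      θ' z.1 / 2 * (w (fderiv ℝ q z (0, u)) (fderiv ℝ q z (0, v)) +
          w (q z) (fderiv ℝ (fderiv ℝ q) z (0, u) (0, v)) -
        (w (fderiv ℝ p z (0, u)) (fderiv ℝ p z (0, v)) +
          w (p z) (fderiv ℝ (fderiv ℝ p) z (0, u) (0, v)))) = 0 := fun z u v => by
    have h := (((bil w (line2 hp z (0, u) (1, 0) 0) (line2 hp z (0, u) (0, v) 0)).const_mul
      (1 - θ z.1)).add ((bil w (line2 hq z (0, u) (1, 0) 0)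
        (line2 hq z (0, u) (0, v) 0)).const_mul (θ z.1))).add
      (((bil w (line hq z (0, u) 0) (line2 hq z (0, u) (0, v) 0)).sub
        (bil w (line hp z (0, u) 0) (line2 hp z (0, u) (0, v) 0))).const_mul (θ' z.1 / 2))
    have h2 := h.unique ((hasDerivAt_const (0 : ℝ) (0 : ℝ)).congr_of_eventuallyEq
      (Eventually.of_forall fun r => by
        have := hf (z + r • ((0 : ℝ), u)) v
        rw [show (z + r • ((0 : ℝ), u)).1 = z.1 by simp] at this
        exact this))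
    simpa only [zero_smul, add_zero] using h2
  have e : ∀ s : ℝ, ((0 : ℝ), x) + s • ((1 : ℝ), (0 : E)) = (s, x) := fun s => by simp
  have hd : ∀ s, HasDerivAt (fun s => (1 - θ s) * w (fderiv ℝ p (s, x) (0, u))
      (fderiv ℝ p (s, x) (0, v)) + θ s * w (fderiv ℝ q (s, x) (0, u))
      (fderiv ℝ q (s, x) (0, v))) 0 s := fun s => by
    have h := (((hθ s).const_sub 1).mul (bil w (line2 hp (0, x) (1, 0) (0, u) s)
      (line2 hp (0, x) (1, 0) (0, v) s))).add ((hθ s).mul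
        (bil w (line2 hq (0, x) (1, 0) (0, u) s) (line2 hq (0, x) (1, 0) (0, v) s)))
    simp only [e] at h
    refine HasDerivAt.congr_deriv h ?_
    have k1 := key (s, x) u v
    have k2 := key (s, x) v u
    rw [symm2 hp _ (0, v) (0, u), symm2 hq _ (0, v) (0, u), symm2 hp _ (0, v), symm2 hq _ (0, v),
      hw (fderiv ℝ (fderiv ℝ p) _ _ _), hw (fderiv ℝ (fderiv ℝ q) _ _ _),
      hw (fderiv ℝ p _ (0, v)), hw (fderiv ℝ q _ (0, v))] at k2
    rw [symm2 hp _ (0, u) (1, 0), symm2 hq _ (0, u) (1, 0)] at k1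
    linarith
  exact is_const_of_deriv_eq_zero (fun s => (hd s).differentiableAt) (fun s => (hd s).deriv) t 0

theorem dst_zero {t : ℝ} (h : t ∉ Icc (0 : ℝ) 1) : deriv smoothTransition t = 0 := by
  rcases lt_or_ge t 0 with a | a
  · have : smoothTransition =ᶠ[𝓝 t] fun _ => 0 := by
      filter_upwards [Iio_mem_nhds a] with s hs using smoothTransition.zero_of_nonpos (le_of_lt hs)
    rw [this.deriv_eq, deriv_const]
  · have : smoothTransition =ᶠ[𝓝 t] fun _ => 1 := by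
      filter_upwards [Ioi_mem_nhds (not_le.1 fun b => h ⟨a, b⟩)] with s hs using
        smoothTransition.one_of_one_le (le_of_lt hs)
    rw [this.deriv_eq, deriv_const]

variable [FiniteDimensional ℝ E]

theorem field (w : E →L[ℝ] E →L[ℝ] ℝ) {G : ℝ → E → E} (hG : ContDiff ℝ ∞ (uncurry G))
    {K : Set E} (hK : IsCompact K) (h : ∀ s, ∀ x ∉ K, G s x = x)
    (nd : ∀ s x, ∀ t ∈ Icc (0 : ℝ) 1, ∀ u, (∀ v, (1 - t) * w u v +
      t * w (fderiv ℝ (G s) x u) (fderiv ℝ (G s) x v) = 0) → u = 0) :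
    ∃ X : ℝ × ℝ × E → E, ContDiff ℝ ∞ X ∧ HasCompactSupport X ∧
      (∀ s t x, G s =ᶠ[𝓝 x] id → X (s, t, x) = 0) ∧ ∀ s ∈ Icc (0 : ℝ) 1, ∀ t x v,
        (1 - smoothTransition t) * w (X (s, t, x)) v + smoothTransition t *
          w (fderiv ℝ (G s) x (X (s, t, x))) (fderiv ℝ (G s) x v) + deriv smoothTransition t / 2 *
          (w (G s x) (fderiv ℝ (G s) x v) - w x v) = 0 := by
  have := FiniteDimensional.complete ℝ E
  have st : ContDiff ℝ ∞ smoothTransition := smoothTransition.contDiff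
  have st' : ContDiff ℝ ∞ (deriv smoothTransition) := st.deriv'
  obtain ⟨A, hA⟩ : ∃ A : ℝ × ℝ × E → E →L[ℝ] E, A = fun z => fderiv ℝ (G z.1) z.2.2 := ⟨_, rfl⟩
  have cA : ContDiff ℝ ∞ A := hA ▸ ContDiff.fderiv (f := fun z : ℝ × ℝ × E => G z.1) (m := ∞)
    (hG.comp (f := fun y : (ℝ × ℝ × E) × E => (y.1.1, y.2)) (by fun_prop)) (by fun_prop) (by simp)
  have cG : ContDiff ℝ ∞ fun z : ℝ × ℝ × E => G z.1 z.2.2 :=
    hG.comp (f := fun z : ℝ × ℝ × E => (z.1, z.2.2)) (by fun_prop)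
  let M : ℝ × ℝ × E → E →L[ℝ] E →L[ℝ] ℝ := fun z => (1 - smoothTransition z.2.1) • w +
    smoothTransition z.2.1 •
      (((ContinuousLinearMap.compL ℝ E E ℝ).flip (A z)).comp (w.comp (A z)))
  let a : ℝ × ℝ × E → E →L[ℝ] ℝ := fun z => (w (G z.1 z.2.2)).comp (A z) - w z.2.2
  have ca : ContDiff ℝ ∞ a := by fun_prop
  have Mv : ∀ z u v, M z u v = (1 - smoothTransition z.2.1) * w u v +
      smoothTransition z.2.1 * w (A z u) (A z v) := fun z u v => rfl
  have cM : ContDiff ℝ ∞ M := contDiff_clm_apply_iff.2 fun u => contDiff_clm_apply_iff.2 fun v => by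
    simp only [Mv]
    fun_prop
  have iM : ∀ z, (M z).IsInvertible := fun z => by
    have inj : Injective (M z).toLinearMap := (injective_iff_map_eq_zero _).2 fun u hu =>
      nd z.1 z.2.2 _ ⟨smoothTransition.nonneg z.2.1, smoothTransition.le_one z.2.1⟩ u fun v => by
        have : M z u v = 0 := congr($hu v)
        rwa [Mv, hA] at this
    have dim : Module.finrank ℝ E = Module.finrank ℝ (E →L[ℝ] ℝ) := by
      rw [← (LinearMap.toContinuousLinearMap (𝕜 := ℝ) (E := E) (F' := ℝ)).finrank_eq]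
      exact Subspace.dual_finrank_eq.symm
    exact ⟨((M z).toLinearMap.linearEquivOfInjective inj dim).toContinuousLinearEquiv,
      ContinuousLinearMap.ext fun _ => rfl⟩
  have cI : ContDiff ℝ ∞ fun z => (M z).inverse := contDiff_iff_contDiffAt.2 fun z =>
    (iM z).contDiffAt_map_inverse.comp z cM.contDiffAt
  let χ : ContDiffBump (0 : ℝ) := ⟨1, 2, one_pos, one_lt_two⟩
  have cχ : ContDiff ℝ ∞ χ := χ.contDiff
  have z0 : ∀ s t x, G s =ᶠ[𝓝 x] id → a (s, t, x) = 0 := fun s t x hx => by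
    have e1 : G s x = x := hx.eq_of_nhds
    have e2 : A (s, t, x) = .id ℝ E := by rw [hA]; exact hx.fderiv_eq.trans fderiv_id
    simp [a, e1, e2]
  refine ⟨fun z => (-(χ z.1 * deriv smoothTransition z.2.1 / 2)) • (M z).inverse (a z),
    by fun_prop, HasCompactSupport.intro ((isCompact_closedBall (0 : ℝ) 2).prod
      ((isCompact_Icc (a := (0 : ℝ)) (b := 1)).prod hK)) fun z hz => ?_,
    fun s t x hx => by simp [z0 s t x hx], fun s hs t x v => ?_⟩
  · by_cases h1 : z.1 ∈ closedBall (0 : ℝ) 2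
    · by_cases h2 : z.2.1 ∈ Icc (0 : ℝ) 1
      · have : a z = 0 := z0 z.1 z.2.1 z.2.2 (by
          filter_upwards [hK.isClosed.isOpen_compl.mem_nhds fun h3 => hz ⟨h1, h2, h3⟩] with y hy
            using h _ y hy)
        simp [this]
      · simp [dst_zero h2]
    · simp [χ.zero_of_le_dist (not_le.1 h1).le]
  · have e1 : χ s = 1 := χ.one_of_mem_closedBall (by
      rw [mem_closedBall_zero_iff, Real.norm_of_nonneg hs.1]; exact hs.2)
    have e2 := Mv (s, t, x)
      ((-(χ s * deriv smoothTransition t / 2)) • (M (s, t, x)).inverse (a (s, t, x))) v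
    rw [map_smul, (iM _).self_apply_inverse, hA] at e2
    rw [← e2, e1]
    simp [a, hA]

theorem moser (w : E →L[ℝ] E →L[ℝ] ℝ) (hw : ∀ u v, w u v = -w v u) {G : ℝ → E → E}
    (hG : ContDiff ℝ ∞ (uncurry G)) {K : Set E} (hK : IsCompact K) (h : ∀ s, ∀ x ∉ K, G s x = x)
    (nd : ∀ s x, ∀ t ∈ Icc (0 : ℝ) 1, ∀ u, (∀ v, (1 - t) * w u v +
      t * w (fderiv ℝ (G s) x u) (fderiv ℝ (G s) x v) = 0) → u = 0) (h1 : G 1 = id)
    (h0 : ∀ x u v, w (fderiv ℝ (G 0) x u) (fderiv ℝ (G 0) x v) = w u v) :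
    ∃ Φ : ℝ → E → E, ContDiff ℝ ∞ (uncurry Φ) ∧ Φ 0 = id ∧ Φ 1 = G 0 ∧
      (∀ r x u v, w (fderiv ℝ (Φ r) x u) (fderiv ℝ (Φ r) x v) = w u v) ∧
      ∀ r, ∀ x ∉ K, Φ r x = x := by
  obtain ⟨X, cX, sX, X0, X1⟩ := field w hG hK h nd
  obtain ⟨C, hC⟩ := cX.lipschitzWith_of_hasCompactSupport sX (by simp)
  obtain ⟨B, hB⟩ := sX.exists_bound_of_continuous cX.continuous
  have lY : LipschitzWith C fun z => ((0 : ℝ), (1 : ℝ), X z) :=
    LipschitzWith.of_dist_le_mul fun a b => by simpa [Prod.dist_eq] using hC.dist_le_mul a b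
  obtain ⟨ψ, cψ, ψ0, ψ1⟩ := smooth_flow (Y := fun z => ((0 : ℝ), (1 : ℝ), X z)) (by fun_prop) lY
    (L := ⟨max 1 B, le_max_of_le_left zero_le_one⟩) fun z => by
      change max ‖(0 : ℝ)‖ (max ‖(1 : ℝ)‖ ‖X z‖) ≤ max 1 B
      rw [norm_zero, norm_one]
      exact max_le (le_max_of_le_left zero_le_one) (max_le_max le_rfl (hB z))
  have fix : ∀ s x, (∀ t, X (s, t, x) = 0) → ∀ t, ψ t (s, 0, x) = (s, t, x) := fun s x hx t =>
    congrFun (uniq lY (fun t => ψ1 t (s, 0, x)) (β := fun t => (s, t, x)) (fun t => by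
      rw [hx]
      exact (hasDerivAt_const t s).prodMk ((hasDerivAt_id t).prodMk (hasDerivAt_const t x)))
      (ψ0 _)) t
  have comp : ∀ s t x, ψ t (s, 0, x) = (s, t, (ψ t (s, 0, x)).2.2) := fun s t x => by
    have a : ∀ t, HasDerivAt (fun t => (ψ t (s, 0, x)).1) 0 t := fun t => (ψ1 t _).fst
    have b : ∀ t, HasDerivAt (fun t => (ψ t (s, 0, x)).2.1 - t) 0 t := fun t => by
      have : HasDerivAt (fun t => (ψ t (s, 0, x)).2.1) 1 t := (ψ1 t _).snd.fst
      exact (this.sub (hasDerivAt_id t)).congr_deriv (sub_self 1)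
    have a' := is_const_of_deriv_eq_zero (fun t => (a t).differentiableAt) (fun t => (a t).deriv) t 0
    have b' := is_const_of_deriv_eq_zero (fun t => (b t).differentiableAt) (fun t => (b t).deriv) t 0
    rw [ψ0] at a' b'
    exact Prod.ext a' (Prod.ext (by simpa [sub_eq_zero] using b') rfl)
  have cG : ∀ s, ContDiff ℝ ∞ (G s) := fun s => hG.comp (contDiff_prodMk_right s)
  have cP : ContDiff ℝ ∞ fun y : ℝ × ℝ × E => (ψ y.2.1 (y.1, 0, y.2.2)).2.2 :=
    (cψ.comp (f := fun y : ℝ × ℝ × E => (y.2.1, (y.1, 0, y.2.2))) (by fun_prop)).snd.snd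
  have main : ∀ s ∈ Icc (0 : ℝ) 1, ∀ t x u v, ∀ N, HasFDerivAt (fun x => (ψ t (s, 0, x)).2.2) N x →
      (1 - smoothTransition t) * w (N u) (N v) + smoothTransition t *
        w (fderiv ℝ (G s) (ψ t (s, 0, x)).2.2 (N u)) (fderiv ℝ (G s) (ψ t (s, 0, x)).2.2 (N v)) =
      w u v := fun s hs t x u v N hN => by
    obtain ⟨p, hp⟩ : ∃ p : ℝ × E → E, p = fun y => (ψ y.1 (s, 0, y.2)).2.2 := ⟨_, rfl⟩
    have cp : ContDiff ℝ ∞ p := hp ▸ cP.comp (contDiff_prodMk_right s)
    have dq : ∀ z b, fderiv ℝ (G s ∘ p) z b = fderiv ℝ (G s) (p z) (fderiv ℝ p z b) := fun z b => by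
      rw [fderiv_comp z ((cG s).differentiable (by simp) _) (cp.differentiable (by simp) _)]
      rfl
    have dx : ∀ t N, HasFDerivAt (fun x => (ψ t (s, 0, x)).2.2) N x → ∀ u,
        fderiv ℝ p (t, x) (0, u) = N u := fun t N hN u => by
      have := (cp.differentiable (by simp) (t, x)).hasFDerivAt.comp x
        (hasFDerivAt_prodMk_right (𝕜 := ℝ) t x)
      rw [hp] at this
      rw [hN.unique this, hp]
      rfl
    have dt : ∀ z, fderiv ℝ p z (1, 0) = X (s, z.1, p z) := fun z => by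
      have a := line cp (0, z.2) (1, 0) z.1
      have e : ∀ r : ℝ, ((0 : ℝ), z.2) + r • ((1 : ℝ), (0 : E)) = (r, z.2) := fun r => by simp
      simp only [e] at a
      have b := (ψ1 z.1 (s, 0, z.2)).snd.snd
      rw [comp] at b
      rw [hp] at a ⊢
      exact a.unique b
    have := invar w hw cp ((cG s).comp cp) (θ := smoothTransition) (θ' := deriv smoothTransition)
      (fun t => (smoothTransition.contDiff (n := 1)).differentiable_one t |>.hasDerivAt)
      (fun z v => by simp only [dq, dt]; exact X1 s hs z.1 (p z) _) x u v t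
    simp only [dq, dx t N hN, dx 0 (.id ℝ E) (by simp only [ψ0]; exact hasFDerivAt_id x),
      smoothTransition.zero, sub_zero, one_mul, zero_mul, add_zero, ContinuousLinearMap.id_apply]
      at this
    rw [hp] at this
    exact this
  have st : ContDiff ℝ ∞ smoothTransition := smoothTransition.contDiff
  refine ⟨fun r x => G (smoothTransition (1 - 2 * r))
    (ψ (2 - 2 * r) (smoothTransition (1 - 2 * r), 0, x)).2.2, ?_, funext fun x => ?_,
    funext fun x => ?_, fun r x u v => ?_, fun r x hx => ?_⟩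
  · exact hG.comp (f := fun y : ℝ × E => (smoothTransition (1 - 2 * y.1),
      (ψ (2 - 2 * y.1) (smoothTransition (1 - 2 * y.1), 0, y.2)).2.2)) (ContDiff.prodMk
        (by fun_prop) (cP.comp (f := fun y : ℝ × E =>
          (smoothTransition (1 - 2 * y.1), 2 - 2 * y.1, y.2)) (by fun_prop)))
  · simp only [mul_zero, sub_zero, smoothTransition.one]
    rw [fix 1 x fun t => X0 1 t x (by rw [h1]), h1]
  · simp only [smoothTransition.zero_of_nonpos (show (1 : ℝ) - 2 * 1 ≤ 0 by norm_num),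
      show (2 : ℝ) - 2 * 1 = 0 by norm_num, ψ0]
  · have hN := ((cP.comp (f := fun x => (smoothTransition (1 - 2 * r), 2 - 2 * r, x))
      (by fun_prop)).differentiable (by simp) x).hasFDerivAt
    have m := main _ ⟨smoothTransition.nonneg (1 - 2 * r), smoothTransition.le_one _⟩ (2 - 2 * r)
      x u v _ hN
    have d := ((((cG (smoothTransition (1 - 2 * r))).differentiable (by simp)
      _).hasFDerivAt).comp x hN).fderiv
    refine (congrArg₂ (w · ·) congr($d u) congr($d v)).trans (Eq.trans ?_ m)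
    rcases le_total r (1 / 2) with c | c
    · rw [smoothTransition.one_of_one_le (show 1 ≤ 2 - 2 * r by linarith), sub_self, zero_mul,
        zero_add, one_mul]
      rfl
    · simp only [smoothTransition.zero_of_nonpos (show 1 - 2 * r ≤ 0 by linarith),
        ContinuousLinearMap.comp_apply, h0]
      ring
  · beta_reduce
    rw [fix _ x fun t => X0 _ t x (by
      filter_upwards [hK.isClosed.isOpen_compl.mem_nhds hx] with y hy using h _ y hy)]
    exact h _ x hx

end Pool.Agent.MP_630a92_gt.Osc
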