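import Pool.Agent.MP_630a92_gt.Osc.Defs
import Pool.Agent.MP_630a92_gt.Osc.Moser
import Pool.Agent.MP_630a92_gt.Osc.Inv

/-! Averaging a symplectomorphism whose derivative has small mean oscillation. -/

namespace Pool.Agent.MP_630a92_gt.Osc

open Set Filter Topology Function Metric MeasureTheory Real
open scoped ContDiff RealInnerProductSpace

variable {E : Type} [NormedAddCommGroup E] [InnerProductSpace ℝ E] {J : E →L[ℝ] E}

theorem nrm (hO : ∀ u v, ⟪J u, J v⟫ = ⟪u, v⟫) (u : E) : ‖J u‖ = ‖u‖ := by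
  rw [← sq_eq_sq₀ (norm_nonneg _) (norm_nonneg _), ← real_inner_self_eq_norm_sq, hO,
    real_inner_self_eq_norm_sq]

theorem near (hO : ∀ u v, ⟪J u, J v⟫ = ⟪u, v⟫) {u a b : E} (hu : ‖u‖ = 1) (ha : ‖a‖ ≤ 1 / 3)
    (hb : ‖b‖ ≤ 1 / 3) : 0 < ⟪J (u + a), J u + b⟫ := by
  have h1 := abs_le.1 (abs_real_inner_le_norm (J u) b)
  have h2 := abs_le.1 (abs_real_inner_le_norm (J a) (J u))
  have h3 := abs_le.1 (abs_real_inner_le_norm (J a) b)
  rw [nrm hO, nrm hO, hu] at h2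
  rw [nrm hO, hu] at h1
  rw [nrm hO] at h3
  rw [map_add, inner_add_left, inner_add_right, inner_add_right, hO u u,
    real_inner_self_eq_norm_sq, hu]
  nlinarith [norm_nonneg a, norm_nonneg b]

variable [FiniteDimensional ℝ E]

omit [FiniteDimensional ℝ E] in
theorem pres_inj (hO : ∀ u v, ⟪J u, J v⟫ = ⟪u, v⟫) {P : E →L[ℝ] E} (hP : Pres J P) :
    Injective P := (injective_iff_map_eq_zero P).2 fun u hu => by
  have := hP u (J u)
  rw [hu, map_zero, inner_zero_left, hO] at this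
  exact inner_self_eq_zero.1 this.symm

theorem nondeg (hO : ∀ u v, ⟪J u, J v⟫ = ⟪u, v⟫) {P A : E →L[ℝ] E} (hP : Pres J P)
    (h : ∀ u, ‖u‖ = 1 → 0 < ⟪J (A (P u)), A (P (J u))⟫) {t : ℝ} (ht : t ∈ Icc (0 : ℝ) 1) (u : E)
    (hu : ∀ v, (1 - t) * ⟪J u, v⟫ + t * ⟪J (A u), A v⟫ = 0) : u = 0 := by
  obtain ⟨z, rfl⟩ : ∃ z, P z = u :=
    (LinearMap.injective_iff_surjective (f := P.toLinearMap)).1 (pres_inj hO hP) u
  by_contra hz
  have z0 : ‖z‖ ≠ 0 := fun e => hz (by rw [norm_eq_zero.1 e, map_zero])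
  obtain ⟨r, e, r0, he, rfl⟩ : ∃ (r : ℝ) (e : E), r ≠ 0 ∧ ‖e‖ = 1 ∧ r • e = z :=
    ⟨_, ‖z‖⁻¹ • z, z0, by rw [norm_smul, norm_inv, norm_norm, inv_mul_cancel₀ z0],
      by rw [smul_smul, mul_inv_cancel₀ z0, one_smul]⟩
  have h1 := hu (P (J e))
  have h2 := h e he
  simp only [map_smul, real_inner_smul_left] at h1
  rw [hP, hO, real_inner_self_eq_norm_sq, he] at h1
  have h3 : (1 - t) + t * ⟪J (A (P e)), A (P (J e))⟫ = 0 :=
    mul_left_cancel₀ r0 (by linarith)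
  rcases ht.1.eq_or_lt with h4 | h4
  · rw [← h4] at h3; linarith
  · linarith [mul_pos h4 h2, ht.2]

variable [MeasurableSpace E] [BorelSpace E] {μ : Measure E} [IsProbabilityMeasure μ] {S : Set E}

theorem cov (hO : ∀ u v, ⟪J u, J v⟫ = ⟪u, v⟫) (hS : IsCompact S) (hμ : μ Sᶜ = 0) {f h : E → E}
    (cf : Continuous f) (ch : Continuous h) (h1 : ∀ y, ⟪J (f y), h y⟫ = 1) {c d : E}
    (hc : ∫ y, ‖f y - c‖ ^ 2 ∂μ < 1) (hd : ∫ y, ‖h y - d‖ ^ 2 ∂μ < 1) :
    0 < ⟪J (∫ y, f y ∂μ), ∫ y, h y ∂μ⟫ := by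
  have := FiniteDimensional.complete ℝ E
  obtain ⟨m, hm⟩ : ∃ m, m = ∫ y, f y ∂μ := ⟨_, rfl⟩
  obtain ⟨n, hn⟩ : ∃ n, n = ∫ y, h y ∂μ := ⟨_, rfl⟩
  rw [← hm, ← hn]
  have z : ∀ {f : E → E}, Continuous f → ∀ m, m = ∫ y, f y ∂μ → ∀ v,
      ∫ y, ⟪v, f y - m⟫ ∂μ = 0 := fun cf m hm v => by
    rw [integral_inner (integ hS hμ (by fun_prop)), integral_sub (integ hS hμ cf)
      (integrable_const m), integral_const, probReal_univ, one_smul, ← hm, sub_self,
      inner_zero_right]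
  have z' : ∫ y, ⟪n, J (f y) - J m⟫ ∂μ = 0 := z (J.continuous.comp cf) _
    (by rw [hm]; exact (J.integral_comp_comm (integ hS hμ cf)).symm) n
  have key := integral_mono (μ := μ) (integrable_const (2 - 2 * ⟪J m, n⟫))
    (g := fun y => ‖f y - c‖ ^ 2 + ‖h y - d‖ ^ 2 + (2 * ⟪n, J (f y) - J m⟫ +
      2 * ⟪c - m, f y - m⟫ + 2 * ⟪J m + (d - n), h y - n⟫)) (integ hS hμ (by fun_prop))
    fun y => by
      obtain ⟨a, ha⟩ : ∃ a, f y = m + a := ⟨f y - m, by abel⟩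
      obtain ⟨b, hb⟩ : ∃ b, h y = n + b := ⟨h y - n, by abel⟩
      have e := h1 y
      have e1 : ‖f y - c‖ ^ 2 = ‖a‖ ^ 2 - 2 * ⟪c - m, a⟫ + ‖c - m‖ ^ 2 := by
        rw [real_inner_comm, ← norm_sub_sq_real, ha]; congr 2; abel
      have e2 : ‖h y - d‖ ^ 2 = ‖b‖ ^ 2 - 2 * ⟪d - n, b⟫ + ‖d - n‖ ^ 2 := by
        rw [real_inner_comm, ← norm_sub_sq_real, hb]; congr 2; abel
      have e3 := real_inner_le_norm (J a) b
      rw [nrm hO] at e3
      beta_reduce
      rw [e1, e2]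
      rw [ha, hb, map_add] at *
      simp only [add_sub_cancel_left, inner_add_left, inner_add_right] at *
      rw [real_inner_comm (J a) n]
      nlinarith [sq_nonneg (‖a‖ - ‖b‖), sq_nonneg ‖c - m‖, sq_nonneg ‖d - n‖]
  rw [integral_add (integ hS hμ (by fun_prop)) (integ hS hμ (by fun_prop)),
    integral_add (integ hS hμ (by fun_prop)) (integ hS hμ (by fun_prop)),
    integral_add (integ hS hμ (by fun_prop)) (integ hS hμ (by fun_prop)),
    integral_add (integ hS hμ (by fun_prop)) (integ hS hμ (by fun_prop)),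
    integral_const_mul, integral_const_mul, integral_const_mul, z', z cf m hm, z ch n hn,
    integral_const, probReal_univ, one_smul] at key
  linarith

theorem path (hO : ∀ u v, ⟪J u, J v⟫ = ⟪u, v⟫) (h0 : ∀ x, μ {x} = 0) (hS : IsCompact S)
    (hμ : μ Sᶜ = 0) {φ : E → E} (hφ : ContDiff ℝ ∞ φ) (hs : ∀ x, Pres J (fderiv ℝ φ x))
    {K : Set E} (hK : IsCompact K) (h : ∀ z ∉ K, φ z = z)
    (osc : ∀ x, ∀ s : ℝ, 0 ≤ s → ∃ P Q, Pres J P ∧ Pres J Q ∧ ∀ u, ‖u‖ = 1 →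
      ∃ c, ∫ y, ‖Q (fderiv ℝ φ (x + s • y) (P u)) - c‖ ^ 2 ∂μ < 1) :
    ∃ G : ℝ → E → E, ContDiff ℝ ∞ (uncurry G) ∧ G 0 = φ ∧ G 1 = id ∧
      (∃ K', IsCompact K' ∧ ∀ s, ∀ x ∉ K', G s x = x) ∧ ∀ s x, ∃ P, Pres J P ∧ ∀ u, ‖u‖ = 1 →
        0 < ⟪J (fderiv ℝ (G s) x (P u)), fderiv ℝ (G s) x (P (J u))⟫ := by
  have := FiniteDimensional.complete ℝ E
  have := FiniteDimensional.proper_real E
  have cD : Continuous (fderiv ℝ φ) := hφ.continuous_fderiv (by simp)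
  obtain ⟨ρ, ρ0, hρ⟩ := hK.isBounded.subset_closedBall_lt 0 0
  obtain ⟨σ, σ0, hσ⟩ := hS.isBounded.subset_closedBall_lt 0 0
  obtain ⟨B, hB⟩ := hK.exists_bound_of_continuousOn
    (f := fun x => fderiv ℝ φ x - ContinuousLinearMap.id ℝ E) (by fun_prop)
  obtain ⟨r, r0, hr⟩ := small h0 hS hμ (show 0 < 1 / (3 * (|B| + 1)) by positivity)
  obtain ⟨R, R0, hR⟩ : ∃ R, 0 < R ∧ ρ < R * r :=
    ⟨2 * ρ / r, by positivity, by rw [div_mul_cancel₀ _ r0.ne']; linarith⟩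
  have st : ContDiff ℝ ∞ smoothTransition := smoothTransition.contDiff
  have dF : ∀ (a c : ℝ) x u, fderiv ℝ (fun x => x + c • ∫ y, (φ (x + a • y) - (x + a • y)) ∂μ) x u =
      u + c • ∫ y, (fderiv ℝ φ (x + a • y) u - u) ∂μ := fun a c x u => by
    have := int_fd hS hμ (H := fun q : E × E => φ (q.1 + a • q.2) - (q.1 + a • q.2))
      (H' := fun q => fderiv ℝ φ (q.1 + a • q.2) - .id ℝ E) (by fun_prop) (by fun_prop)
      (fun p y => by
        have d := (hasFDerivAt_id (𝕜 := ℝ) p).add_const (a • y)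
        exact ((hφ.differentiable (by simp) _).hasFDerivAt.comp p d).sub d) x
    have d := ((hasFDerivAt_id x).add (this.const_smul c)).fderiv
    refine congr($d u).trans ?_
    rw [add_apply, smul_apply,
      ContinuousLinearMap.integral_apply (integ hS hμ (by fun_prop))]
    rfl
  have dec : ∀ x u, ‖u‖ = 1 → ‖∫ y, (fderiv ℝ φ (x + R • y) u - u) ∂μ‖ ≤ 1 / 3 := fun x u hu => by
    refine (norm_integral_le_of_norm_le (g := (ball (-R⁻¹ • x) r).indicator fun _ => |B| + 1)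
      ((integrable_const _).indicator measurableSet_ball) (Eventually.of_forall fun y => ?_)).trans ?_
    · by_cases hy : x + R • y ∈ K
      · rw [indicator_of_mem]
        · have : ‖fderiv ℝ φ (x + R • y) u - u‖ ≤ B * ‖u‖ :=
            ContinuousLinearMap.le_of_opNorm_le _ (hB _ hy) u
          rw [hu] at this
          linarith [le_abs_self B]
        · have e : x + R • y = R • (y - -R⁻¹ • x) := by
            rw [neg_smul, sub_neg_eq_add, smul_add, smul_inv_smul₀ R0.ne', add_comm]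
          have := mem_closedBall_zero_iff.1 (hρ hy)
          rw [e, norm_smul, Real.norm_of_nonneg R0.le] at this
          exact mem_ball_iff_norm.2 (lt_of_mul_lt_mul_left (this.trans_lt hR) R0.le)
      · rw [fd_out hK.isClosed h hy]
        simpa using indicator_nonneg (fun _ _ => by positivity) y
    · rw [integral_indicator_const _ measurableSet_ball, smul_eq_mul]
      refine (mul_le_mul_of_nonneg_right (hr _) (by positivity)).trans_eq ?_
      field_simp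
  refine ⟨fun s x => x + smoothTransition (2 - 2 * s) • ∫ y, (φ (x + (R * smoothTransition
    (2 * s)) • y) - (x + (R * smoothTransition (2 * s)) • y)) ∂μ, ?_, funext fun x => ?_,
    funext fun x => ?_, ⟨closedBall 0 (ρ + R * σ), isCompact_closedBall _ _, fun s x hx => ?_⟩,
    fun s x => ?_⟩
  · refine contDiff_snd.add (ContDiff.smul (by fun_prop) (contDiff_infty.2 fun n =>
      int_nat hS hμ n (H := fun q : (ℝ × E) × E => φ (q.1.2 + (R * smoothTransition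
        (2 * q.1.1)) • q.2) - (q.1.2 + (R * smoothTransition (2 * q.1.1)) • q.2)) ?_))
    fun_prop
  · simp [smoothTransition.one_of_one_le (one_le_two (α := ℝ))]
  · simp
  · beta_reduce
    rw [integral_eq_zero_of_ae, smul_zero, add_zero]
    filter_upwards [show ∀ᵐ y ∂μ, y ∈ S from hμ] with y hy
    refine sub_eq_zero.2 (h _ fun hk => hx ?_)
    have a := mem_closedBall_zero_iff.1 (hρ hk)
    have b : ‖(R * smoothTransition (2 * s)) • y‖ ≤ R * σ := by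
      rw [norm_smul, Real.norm_of_nonneg (mul_nonneg R0.le (smoothTransition.nonneg _))]
      exact mul_le_mul (mul_le_of_le_one_right R0.le (smoothTransition.le_one _))
        (mem_closedBall_zero_iff.1 (hσ hy)) (norm_nonneg _) R0.le
    exact mem_closedBall_zero_iff.2 ((norm_le_add_norm_add _ _).trans (add_le_add a b))
  · simp only [dF]
    rcases le_total s (1 / 2) with c | c
    · obtain ⟨P, Q, hP, hQ, H⟩ := osc x (R * smoothTransition (2 * s))
        (mul_nonneg R0.le (smoothTransition.nonneg _))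
      generalize R * smoothTransition (2 * s) = a at H ⊢
      refine ⟨P, hP, fun u hu => ?_⟩
      obtain ⟨c1, h1⟩ := H u hu
      obtain ⟨c2, h2⟩ := H (J u) ((nrm hO u).trans hu)
      have e : ∀ v, Q (v + smoothTransition (2 - 2 * s) •
          ∫ y, (fderiv ℝ φ (x + a • y) v - v) ∂μ) = ∫ y, Q (fderiv ℝ φ (x + a • y) v) ∂μ :=
        fun v => by
          rw [smoothTransition.one_of_one_le (by linarith), one_smul,
            integral_sub (integ hS hμ (by fun_prop)) (integrable_const v), integral_const,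
            probReal_univ, one_smul, add_sub_cancel,
            Q.integral_comp_comm (integ hS hμ (by fun_prop))]
      rw [← hQ, e, e]
      exact cov hO hS hμ (by fun_prop) (by fun_prop)
        (fun y => by rw [hQ, hs, hP, hO, real_inner_self_eq_norm_sq, hu, one_pow]) h1 h2
    · have b : ∀ v, ‖v‖ = 1 → ‖smoothTransition (2 - 2 * s) •
          ∫ y, (fderiv ℝ φ (x + R • y) v - v) ∂μ‖ ≤ 1 / 3 := fun v hv => by
        rw [norm_smul, Real.norm_of_nonneg (smoothTransition.nonneg _)]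
        exact (mul_le_of_le_one_left (norm_nonneg _) (smoothTransition.le_one _)).trans (dec x v hv)
      rw [smoothTransition.one_of_one_le (show 1 ≤ 2 * s by linarith), mul_one]
      exact ⟨.id ℝ E, fun _ _ => rfl, fun u hu =>
        near hO hu (b u hu) (b (J u) ((nrm hO u).trans hu))⟩

theorem main (hJ : ∀ v, J (J v) = -v) (hO : ∀ u v, ⟪J u, J v⟫ = ⟪u, v⟫) (h0 : ∀ x, μ {x} = 0)
    (hS : IsCompact S) (hμ : μ Sᶜ = 0) {φ : E → E} (hφ : IsSymp J φ)
    {K : Set E} (hK : IsCompact K) (h : ∀ z ∉ K, φ z = z)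
    (osc : ∀ x, ∀ s : ℝ, 0 ≤ s → ∃ P Q, Pres J P ∧ Pres J Q ∧ ∀ u, ‖u‖ = 1 →
      ∃ c, ∫ y, ‖Q (fderiv ℝ φ (x + s • y) (P u)) - c‖ ^ 2 ∂μ < 1) :
    ∃ Φ : ℝ → E → E, (ContDiff ℝ ∞ fun q : ℝ × E => Φ q.1 q.2) ∧ Φ 0 = id ∧ Φ 1 = φ ∧
      (∀ t, IsSymp J (Φ t)) ∧ ∃ K' : Set E, IsCompact K' ∧ ∀ t, ∀ z ∉ K', Φ t z = z := by
  obtain ⟨G, cG, G0, G1, ⟨K', hK', GK⟩, hG⟩ := path hO h0 hS hμ hφ.1 hφ.2.2 hK h osc
  obtain ⟨Φ, cΦ, Φ0, Φ1, Φs, ΦK⟩ := moser ((innerSL ℝ).comp J) (fun u v => by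
    change ⟪J u, v⟫ = -⟪J v, u⟫
    rw [← hO (J u), hJ, inner_neg_left, real_inner_comm]) cG hK' GK
    (fun s x t ht u hu => by
      obtain ⟨P, hP, H⟩ := hG s x
      exact nondeg hO hP H ht u hu) G1 (G0 ▸ hφ.2.2)
  refine ⟨Φ, cΦ, Φ0, Φ1.trans G0, fun t => ?_, K', hK', ΦK⟩
  have c : ContDiff ℝ ∞ (Φ t) := cΦ.comp (contDiff_prodMk_right t)
  have i : ∀ x, Injective (fderiv ℝ (Φ t) x) := fun x => pres_inj hO (Φs t x)
  obtain ⟨ψ, h1, h2⟩ := bijective_iff_has_inverse.1 (bij_of c i hK' (ΦK t))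
  exact ⟨c, ⟨ψ, inv_cd c i h1 h2, h1, h2⟩, Φs t⟩

end Pool.Agent.MP_630a92_gt.Osc
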